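import Pool.Agent.Helper73.MX.Defs
import Pool.Agent.Helper90.MT.All

/-!
# MX: the base statement
-/

set_option autoImplicit false

namespace Pool.Agent.Helper73.MX

open Finset

lemma rp (A c ε : ℝ) (hA : 1 ≤ A) (hc : 0 < c) (hε : 0 < ε) : ∃ N₀ : ℕ, ∀ N : ℕ, N₀ ≤ N →
    ∀ x : ℕ, N ≤ x → (x : ℝ) ≤ A * N → (x : ℝ) ^ (1 - ε) ≤ c * (N : ℝ) ^ (1 - ε / 2) := by
  have ht : Filter.Tendsto (fun N : ℕ => ((N : ℝ)) ^ (ε / 2)) Filter.atTop Filter.atTop :=
    (tendsto_rpow_atTop (half_pos hε)).comp tendsto_natCast_atTop_atTop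
  obtain ⟨N₁, hN₁⟩ := Filter.eventually_atTop.1 (ht.eventually_ge_atTop (A / c))
  refine ⟨max N₁ 1, fun N hN x hx hxA => ?_⟩
  have hN1 : 1 ≤ N := (le_max_right _ _).trans hN
  have hNpos : (0 : ℝ) < N := by exact_mod_cast hN1
  have hNx : (N : ℝ) ≤ x := by exact_mod_cast hx
  have h1 := hN₁ N ((le_max_left _ _).trans hN)
  have h2 : (x : ℝ) ^ (1 - ε) ≤ A * (N : ℝ) ^ (1 - ε) := by
    rcases le_or_gt 0 (1 - ε) with h | h
    · calc (x : ℝ) ^ (1 - ε) ≤ (A * N) ^ (1 - ε) :=
            Real.rpow_le_rpow (by positivity) hxA h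
        _ = A ^ (1 - ε) * (N : ℝ) ^ (1 - ε) := Real.mul_rpow (by linarith) hNpos.le
        _ ≤ A * (N : ℝ) ^ (1 - ε) := by
            refine mul_le_mul_of_nonneg_right ?_ (by positivity)
            calc A ^ (1 - ε) ≤ A ^ (1 : ℝ) := Real.rpow_le_rpow_of_exponent_le hA (by linarith)
              _ = A := Real.rpow_one A
    · calc (x : ℝ) ^ (1 - ε) ≤ (N : ℝ) ^ (1 - ε) :=
            Real.rpow_le_rpow_of_nonpos hNpos hNx h.le
        _ ≤ A * (N : ℝ) ^ (1 - ε) := le_mul_of_one_le_left (by positivity) hA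
  refine h2.trans ?_
  have h3 : (N : ℝ) ^ (1 - ε / 2) = (N : ℝ) ^ (ε / 2) * (N : ℝ) ^ (1 - ε) := by
    rw [← Real.rpow_add hNpos]
    congr 1
    ring
  rw [h3, ← mul_assoc]
  refine mul_le_mul_of_nonneg_right ?_ (by positivity)
  rw [div_le_iff₀ hc] at h1
  linarith

theorem Many.map {S T : Set ℕ} (hS : Many S) (f : ℕ → ℕ) (b : ℕ) (hf : Set.InjOn f S)
    (hb : ∀ n ∈ S, f n ≤ n + b) (hT : ∀ n ∈ S, f n ∈ T) : Many T := by
  intro ε hε x₀
  obtain ⟨N₀, hN₀⟩ := rp 2 1 ε (by norm_num) one_pos hε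
  obtain ⟨x, hx, h⟩ := hS (ε / 2) (half_pos hε) (max (max N₀ x₀) b)
  have hxN : N₀ ≤ x := (le_max_left _ _).trans ((le_max_left _ _).trans hx)
  have hxx : x₀ ≤ x := (le_max_right _ _).trans ((le_max_left _ _).trans hx)
  have hxb : b ≤ x := (le_max_right _ _).trans hx
  refine ⟨x + b, hxx.trans (Nat.le_add_right _ _), ?_⟩
  have h1 := hN₀ x hxN (x + b) (Nat.le_add_right _ _) (by
    have : (b : ℝ) ≤ x := by exact_mod_cast hxb
    push_cast
    linarith)
  rw [one_mul] at h1
  refine h1.trans (h.trans ?_)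
  have hfin : {n : ℕ | n < x + b ∧ n ∈ T}.Finite := (Set.finite_lt_nat (x + b)).subset
    fun n hn => hn.1
  have hinj : Set.InjOn f {n : ℕ | n < x ∧ n ∈ S} := hf.mono fun n hn => hn.2
  rw [← hinj.ncard_image]
  refine Nat.cast_le.2 (Set.ncard_le_ncard ?_ hfin)
  rintro _ ⟨n, ⟨hn, hnS⟩, rfl⟩
  exact ⟨by have := hb n hnS; omega, hT n hnS⟩

theorem base : StBase := by
  classical
  obtain ⟨δ₀, hδ₀, K, hK, hG⟩ := Pool.Agent.Helper90.MT.glob_all
  set δ : ℝ := min δ₀ 1 with hδdef
  have hδ : 0 < δ := lt_min hδ₀ one_pos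
  have hδ1 : δ ≤ 1 := min_le_right _ _
  have hδδ : δ ≤ δ₀ := min_le_left _ _
  refine ⟨δ / 2, half_pos hδ, K, hK, ?_⟩
  intro J H R m v hm hcard hdisj hR hadm hcop
  set U : Finset ℕ := (range J).biUnion H with hU
  set hits : Finset ℕ → ℕ := fun T => ((range J).filter (fun j => ∃ h ∈ H j, h ∈ T)).card
    with hhits
  set c : ℝ := δ / 2 / (2 : ℝ) ^ U.card with hc
  have hcpos : 0 < c := by positivity
  have key : ∀ i : ℕ, ∃ T ∈ U.powerset, δ / 2 * J ≤ (hits T : ℝ) ∧ ∃ N : ℕ, i ≤ N ∧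
      c * (N : ℝ) ^ (1 - (1 : ℝ) / (i + 1)) ≤
      (((Ioc N (4 * N)).filter (fun n => n ≡ v [MOD m] ∧ ∀ j < R, ((n + j).Prime ↔ j ∈ T))).card
        : ℝ) := by
    intro i
    obtain ⟨N, hN, u, hu0, hu1, husupp, husum, huhit⟩ := hG J H (range R \ U) m v (max i 1)
      (1 / ((i : ℝ) + 1)) hm (by positivity) hcard hdisj (by
        intro j hj
        rw [Finset.disjoint_left]
        intro h hh hE
        exact (mem_sdiff.1 hE).2 (mem_biUnion.2 ⟨j, mem_range.2 hj, hh⟩)) hadm hcop
    have hNpos : (0 : ℝ) < N := by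
      have : 1 ≤ N := (le_max_right _ _).trans hN
      exact_mod_cast this
    set pat : ℕ → Finset ℕ := fun n => (range R).filter (fun j => (n + j).Prime) with hpat
    have hpatU : ∀ n, u n ≠ 0 → pat n ⊆ U := by
      intro n hn j hj
      rw [hpat, mem_filter, mem_range] at hj
      by_contra hjU
      exact (husupp n hn).2.2 j (mem_sdiff.2 ⟨mem_range.2 hj.1, hjU⟩) hj.2
    have hhit : ∀ n j, j < J → ((∃ h ∈ H j, (n + h).Prime) ↔ ∃ h ∈ H j, h ∈ pat n) := by
      intro n j hj
      constructor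
      · rintro ⟨h, hh, hp⟩
        exact ⟨h, hh, mem_filter.2 ⟨mem_range.2 (hR j hj h hh), hp⟩⟩
      · rintro ⟨h, hh, hp⟩
        exact ⟨h, hh, (mem_filter.1 hp).2⟩
    set I := Ioc N (4 * N) with hI
    have hdouble : δ * J ≤ ∑ n ∈ I, u n * (hits (pat n) : ℝ) := by
      calc δ * J = ∑ _j ∈ range J, δ := by rw [sum_const, card_range, nsmul_eq_mul]; ring
        _ ≤ ∑ j ∈ range J, ∑ n ∈ I.filter (fun n => ∃ h ∈ H j, (n + h).Prime), u n :=
            sum_le_sum fun j hj => hδδ.trans (huhit j (mem_range.1 hj))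
        _ = ∑ j ∈ range J, ∑ n ∈ I, if (∃ h ∈ H j, h ∈ pat n) then u n else 0 := by
            refine sum_congr rfl fun j hj => ?_
            rw [sum_filter]
            refine sum_congr rfl fun n _ => ?_
            simp only [hhit n j (mem_range.1 hj)]
        _ = ∑ n ∈ I, ∑ j ∈ range J, if (∃ h ∈ H j, h ∈ pat n) then u n else 0 := sum_comm
        _ = ∑ n ∈ I, u n * (hits (pat n) : ℝ) := by
            refine sum_congr rfl fun n _ => ?_
            rw [← sum_filter, sum_const, nsmul_eq_mul, mul_comm]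
    set G := I.filter (fun n => δ / 2 * J ≤ (hits (pat n) : ℝ)) with hGdef
    have hitsle : ∀ T, (hits T : ℝ) ≤ J := by
      intro T
      have : hits T ≤ J := (card_filter_le _ _).trans (card_range J).le
      exact_mod_cast this
    have hGsum : δ / 2 ≤ ∑ n ∈ G, u n := by
      rcases Nat.eq_zero_or_pos J with hJ | hJ
      · have : G = I := by
          rw [hGdef, filter_true_of_mem]
          intro n _
          rw [hJ]
          simp
        rw [this, husum]
        linarith
      · have hJ' : (0 : ℝ) < J := by exact_mod_cast hJ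
        have h1 : ∑ n ∈ I, u n * (hits (pat n) : ℝ) ≤
            J * ∑ n ∈ G, u n + δ / 2 * J * ∑ n ∈ I, u n := by
          rw [← sum_filter_add_sum_filter_not I (fun n => δ / 2 * J ≤ (hits (pat n) : ℝ))]
          refine add_le_add ?_ ?_
          · rw [mul_sum]
            refine sum_le_sum fun n _ => ?_
            rw [mul_comm]
            exact mul_le_mul_of_nonneg_right (hitsle _) (hu0 n)
          · calc ∑ n ∈ I.filter (fun n => ¬ (δ / 2 * J ≤ (hits (pat n) : ℝ))),
                  u n * (hits (pat n) : ℝ)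
                ≤ ∑ n ∈ I.filter (fun n => ¬ (δ / 2 * J ≤ (hits (pat n) : ℝ))),
                  δ / 2 * J * u n := by
                  refine sum_le_sum fun n hn => ?_
                  rw [mul_comm]
                  exact mul_le_mul_of_nonneg_right (le_of_lt (not_le.1 (mem_filter.1 hn).2))
                    (hu0 n)
              _ ≤ ∑ n ∈ I, δ / 2 * J * u n := by
                  refine sum_le_sum_of_subset_of_nonneg (filter_subset _ _) fun n _ _ => ?_
                  have := hu0 n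
                  positivity
              _ = _ := by rw [← mul_sum]
        rw [husum, mul_one] at h1
        have h2 := hdouble.trans h1
        have h3 : δ / 2 * J ≤ J * ∑ n ∈ G, u n := by linarith
        rw [mul_comm] at h3
        exact le_of_mul_le_mul_left h3 hJ'
    -- pigeonhole over patterns
    have hpig : ∃ T ∈ U.powerset, c ≤ ∑ n ∈ G.filter (fun n => pat n = T), u n := by
      by_contra hcon
      push Not at hcon
      have h1 : ∑ n ∈ G, u n = ∑ T ∈ U.powerset, ∑ n ∈ G.filter (fun n => pat n = T), u n := by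
        have h2 : ∑ n ∈ G, u n = ∑ n ∈ G.filter (fun n => pat n ∈ U.powerset), u n :=
          (sum_filter_of_ne fun n _ hne => mem_powerset.2 (hpatU n hne)).symm
        rw [h2, ← sum_fiberwise_of_maps_to (s := G.filter (fun n => pat n ∈ U.powerset))
          (t := U.powerset) (g := pat) (fun n hn => (mem_filter.1 hn).2)]
        refine sum_congr rfl fun T hT => ?_
        congr 1
        ext n
        simp only [mem_filter]
        constructor
        · rintro ⟨⟨h1, _⟩, h3⟩
          exact ⟨h1, h3⟩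
        · rintro ⟨h1, h3⟩
          exact ⟨⟨h1, h3 ▸ hT⟩, h3⟩
      have h3 : ∑ T ∈ U.powerset, ∑ n ∈ G.filter (fun n => pat n = T), u n <
          ∑ _T ∈ U.powerset, c := sum_lt_sum_of_nonempty ⟨∅, empty_mem_powerset U⟩ hcon
      rw [sum_const, card_powerset, nsmul_eq_mul, hc] at h3
      push_cast at h3
      rw [mul_div_cancel₀ _ (by positivity)] at h3
      linarith [h1 ▸ hGsum]
    obtain ⟨T, hT, hTc⟩ := hpig
    refine ⟨T, hT, ?_, N, (le_max_left _ _).trans hN, ?_⟩
    · by_contra hcon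
      have : G.filter (fun n => pat n = T) = ∅ := by
        rw [filter_eq_empty_iff]
        rintro n hn rfl
        exact hcon (mem_filter.1 hn).2
      rw [this, sum_empty] at hTc
      linarith
    · set Q := I.filter (fun n => n ≡ v [MOD m] ∧ ∀ j < R, ((n + j).Prime ↔ j ∈ T)) with hQ
      have h1 : ∑ n ∈ G.filter (fun n => pat n = T), u n ≤
          ∑ n ∈ Q, (N : ℝ) ^ (1 / ((i : ℝ) + 1) - 1) := by
        calc ∑ n ∈ G.filter (fun n => pat n = T), u n
            = ∑ n ∈ (G.filter (fun n => pat n = T)).filter (fun n => u n ≠ 0), u n := by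
              rw [sum_filter_ne_zero]
          _ ≤ ∑ n ∈ Q, u n := by
              refine sum_le_sum_of_subset_of_nonneg ?_ fun n _ _ => hu0 n
              intro n hn
              obtain ⟨hn1, hn2⟩ := mem_filter.1 hn
              obtain ⟨hn3, hn4⟩ := mem_filter.1 hn1
              refine mem_filter.2 ⟨(mem_filter.1 hn3).1, (husupp n hn2).2.1, fun j hj => ?_⟩
              rw [← hn4, hpat, mem_filter, mem_range]
              exact ⟨fun h => ⟨hj, h⟩, fun h => h.2⟩
          _ ≤ _ := sum_le_sum fun n _ => hu1 n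
      rw [sum_const, nsmul_eq_mul] at h1
      have h2 := hTc.trans h1
      have h3 : (N : ℝ) ^ (1 / ((i : ℝ) + 1) - 1) * (N : ℝ) ^ (1 - 1 / ((i : ℝ) + 1)) = 1 := by
        rw [← Real.rpow_add hNpos]
        simp
      calc c * (N : ℝ) ^ (1 - (1 : ℝ) / (i + 1))
          ≤ ((Q.card : ℝ) * (N : ℝ) ^ (1 / ((i : ℝ) + 1) - 1)) * (N : ℝ) ^ (1 - 1 / ((i : ℝ) + 1)) :=
            mul_le_mul_of_nonneg_right h2 (by positivity)
        _ = Q.card := by rw [mul_assoc, h3, mul_one]
  choose T hTU hTh N hN hcount using key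
  obtain ⟨⟨T₀, hT₀⟩, hinf⟩ := Finite.exists_infinite_fiber
    (fun i : ℕ => (⟨T i, hTU i⟩ : {x // x ∈ U.powerset}))
  have hinf' : Set.Infinite {i : ℕ | T i = T₀} := by
    rw [← Set.infinite_coe_iff]
    convert hinf using 2
    ext i
    simp
  refine ⟨T₀, fun h hh => ?_, ?_, ?_⟩
  · obtain ⟨j, hj, hjh⟩ := mem_biUnion.1 (mem_powerset.1 hT₀ hh)
    exact ⟨j, mem_range.1 hj, hjh⟩
  · obtain ⟨i, hi⟩ := hinf'.nonempty
    have := hTh i
    rw [show T i = T₀ from hi] at this
    exact this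
  · intro ε hε x₀
    obtain ⟨N₀, hN₀⟩ := rp 5 c ε (by norm_num) hcpos hε
    obtain ⟨i₁, hi₁⟩ := exists_nat_gt (2 / ε)
    obtain ⟨i, hi, hi'⟩ := hinf'.exists_gt (max (max N₀ x₀) (max i₁ 1))
    have hTi : T i = T₀ := hi
    have e1 : N₀ ≤ N i := by
      have := hN i
      have := le_max_left N₀ x₀
      have := le_max_left (max N₀ x₀) (max i₁ 1)
      omega
    have e2 : x₀ ≤ N i := by
      have := hN i
      have := le_max_right N₀ x₀
      have := le_max_left (max N₀ x₀) (max i₁ 1)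
      omega
    have e3 : 1 ≤ N i := by
      have := hN i
      have := le_max_right i₁ 1
      have := le_max_right (max N₀ x₀) (max i₁ 1)
      omega
    have e4 : i₁ ≤ i := by
      have := le_max_left i₁ 1
      have := le_max_right (max N₀ x₀) (max i₁ 1)
      omega
    have e4' : 2 / ε < i := hi₁.trans_le (by exact_mod_cast e4)
    have hNpos : (1 : ℝ) ≤ N i := by exact_mod_cast e3
    refine ⟨4 * N i + 1, by omega, ?_⟩
    have h1 := hN₀ (N i) e1 (4 * N i + 1) (by omega) (by push_cast; linarith)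
    refine h1.trans ?_
    have h2 : (N i : ℝ) ^ (1 - ε / 2) ≤ (N i : ℝ) ^ (1 - (1 : ℝ) / (i + 1)) := by
      refine Real.rpow_le_rpow_of_exponent_le hNpos ?_
      have h3 : (1 : ℝ) / (i + 1) ≤ ε / 2 := by
        rw [div_le_iff₀ (by positivity)]
        rw [div_lt_iff₀ hε] at e4'
        nlinarith
      linarith
    refine (mul_le_mul_of_nonneg_left h2 hcpos.le).trans ((hcount i).trans ?_)
    rw [← Set.ncard_coe_finset]
    refine Nat.cast_le.2 (Set.ncard_le_ncard ?_ ((Set.finite_lt_nat (4 * N i + 1)).subset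
      fun n hn => hn.1))
    intro n hn
    rw [Finset.mem_coe, mem_filter, mem_Ioc] at hn
    refine ⟨by omega, hn.2.1, fun j hj => ?_⟩
    rw [← hTi]
    exact hn.2.2 j hj

end Pool.Agent.Helper73.MX
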