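import Pool.Agent.Helper90.MT.Def

/-!
# MX: consequences of the sieve theorem with groups of shifts (definitions)
-/

set_option autoImplicit false

namespace Pool.Agent.Helper73.MX

open Finset

/-- `S` has at least `x ^ (1 - ε)` elements below `x`, for arbitrarily large `x` -/
def Many (S : Set ℕ) : Prop := ∀ ε : ℝ, 0 < ε → ∀ x₀ : ℕ, ∃ x ≥ x₀,
  (x : ℝ) ^ (1 - ε) ≤ Set.ncard {n : ℕ | n < x ∧ n ∈ S}

/-- the exact pattern `T` on `[0, R)` is realised by many `n` in the class `v` modulo `m` -/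
def Ex (m v R : ℕ) (T : Finset ℕ) : Prop :=
  Many {n : ℕ | n ≡ v [MOD m] ∧ ∀ j < R, ((n + j).Prime ↔ j ∈ T)}

/-- the interface statement used in this project -/
def StBase : Prop := ∃ δ : ℝ, 0 < δ ∧ ∃ K : ℕ → ℕ, (∀ j, 0 < K j) ∧
  ∀ (J : ℕ) (H : ℕ → Finset ℕ) (R m v : ℕ), 0 < m →
    (∀ j < J, (H j).card = K j) →
    (∀ i < J, ∀ j < J, i ≠ j → Disjoint (H i) (H j)) →
    (∀ j < J, ∀ h ∈ H j, h < R) →
    (∀ p : ℕ, p.Prime → ∃ r : ℕ, ∀ j < J, ∀ h ∈ H j, ¬ p ∣ r + h) →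
    (∀ j < J, ∀ h ∈ H j, (v + h).Coprime m) →
    ∃ T : Finset ℕ, (∀ h ∈ T, ∃ j < J, h ∈ H j) ∧
      δ * J ≤ (((range J).filter (fun j => ∃ h ∈ H j, h ∈ T)).card : ℝ) ∧ Ex m v R T

end Pool.Agent.Helper73.MX
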