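import Pool.Agent.Helper73.MX.Spread

/-!
# MX: all sets of at most `s` elements are realised up to a bounded error
-/

set_option autoImplicit false

namespace Pool.Agent.Helper73.MX

open Finset

theorem Many.mono {S T : Set ℕ} (hS : Many S) (h : S ⊆ T) : Many T :=
  hS.map id 0 (fun _ _ _ _ h => h) (fun _ _ => le_rfl) fun _ hn => h hn

/-- every element is reached from the start of its cluster -/
theorem merge (X : Finset ℕ) (G : ℕ) : ∀ x ∈ X,
    ∃ x' ∈ X.filter (fun x => ∀ y ∈ X, y < x → y + G ≤ x), x' ≤ x ∧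
      x ≤ x' + G * (X.filter (fun y => y < x)).card := by
  intro x
  induction x using Nat.strong_induction_on with
  | _ x ih =>
    intro hx
    by_cases hx' : ∀ y ∈ X, y < x → y + G ≤ x
    · exact ⟨x, mem_filter.2 ⟨hx, hx'⟩, le_rfl, Nat.le_add_right _ _⟩
    · push Not at hx'
      obtain ⟨y, hy, hyx, hyG⟩ := hx'
      obtain ⟨x', hx'1, hx'2, hx'3⟩ := ih y hyx hy
      refine ⟨x', hx'1, hx'2.trans hyx.le, ?_⟩
      have h1 : (X.filter (fun z => z < y)).card + 1 ≤ (X.filter (fun z => z < x)).card := by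
        refine Nat.succ_le_of_lt (card_lt_card ?_)
        refine (Finset.ssubset_iff_of_subset fun z hz => ?_).2 ⟨y, mem_filter.2 ⟨hy, hyx⟩,
          fun hc => lt_irrefl _ (mem_filter.1 hc).2⟩
        exact mem_filter.2 ⟨(mem_filter.1 hz).1, (mem_filter.1 hz).2.trans hyx⟩
      have h2 := Nat.mul_le_mul_left G h1
      rw [mul_add, mul_one] at h2
      omega

theorem Real.mono {Q r m v w w' I I' : ℕ} {X : Finset ℕ} (h : Real Q r m v w I X) (hw : w ≤ w')
    (hI : I' + w' ≤ I + w) : Real Q r m v w' I' X := by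
  obtain ⟨H, h0, h1, h2, h3⟩ := h
  refine ⟨H, h0, fun h hh => ?_, fun x hx => (h2 x hx).trans (card_le_card fun h hh => ?_),
    h3.mono ?_⟩
  · obtain ⟨x, hx, h4, h5⟩ := h1 h hh
    exact ⟨x, hx, h4, by omega⟩
  · obtain ⟨hh1, hh2, hh3⟩ := mem_filter.1 hh
    exact mem_filter.2 ⟨hh1, hh2, by omega⟩
  · rintro n ⟨hn1, hn2⟩
    exact ⟨hn1, fun p hp1 hp2 => hn2 p (by omega) (by omega)⟩

theorem hausdorff₀ (s r : ℕ) : ∃ Q : ℕ, ∀ m v : ℕ, 0 < m → v.Coprime m →
    ∃ w : ℕ, ∀ X : Finset ℕ, X.card ≤ s → ∀ I : ℕ, Real Q r m v w I X := by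
  classical
  obtain ⟨Q, hQ⟩ := spread (s + 1) (Nat.succ_pos s) r
  refine ⟨Q, fun m v hm hv => ?_⟩
  obtain ⟨w₀, G, hG⟩ := hQ m v hm hv
  refine ⟨s * G + w₀, fun X hXs I => ?_⟩
  set X' := X.filter (fun x => ∀ y ∈ X, y < x → y + G ≤ x) with hX'
  have hX's : X'.card ≤ s := (card_le_card (filter_subset _ _)).trans hXs
  have hmerge : ∀ x ∈ X, ∃ x' ∈ X', x' ≤ x ∧ x ≤ x' + s * G := by
    intro x hx
    obtain ⟨x', h1, h2, h3⟩ := merge X G x hx
    refine ⟨x', h1, h2, h3.trans ?_⟩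
    have h4 : (X.filter (fun y => y < x)).card ≤ s := (card_le_card (filter_subset _ _)).trans hXs
    have h5 := Nat.mul_le_mul_left G h4
    rw [mul_comm s G]
    omega
  set L := X.sup id + (s * G + w₀) with hL
  have hXL : ∀ x ∈ X, x + (s * G + w₀) ≤ L := fun x hx => by
    have := Finset.le_sup (f := id) hx
    simp only [id] at this
    omega
  have hX'X : ∀ x ∈ X', x ∈ X := fun x hx => (mem_filter.1 hx).1
  set c := L + I + G + 1 with hc
  obtain ⟨k, hk⟩ : ∃ k, X'.card + (k + 1) = s + 1 := ⟨s - X'.card, by omega⟩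
  set Y := X'.image (fun x => x + s * G) ∪ (range (k + 1)).image (fun j => c * (j + 1)) with hY
  have hfar : ∀ j : ℕ, c ≤ c * (j + 1) := fun j => Nat.le_mul_of_pos_right c (Nat.succ_pos j)
  have hYcases : ∀ y ∈ Y, (∃ x ∈ X', y = x + s * G) ∨ ∃ j, y = c * (j + 1) := by
    intro y hy
    rcases mem_union.1 hy with h | h
    · obtain ⟨x, hx, rfl⟩ := mem_image.1 h
      exact Or.inl ⟨x, hx, rfl⟩
    · obtain ⟨j, _, rfl⟩ := mem_image.1 h
      exact Or.inr ⟨j, rfl⟩
  have hcard : Y.card = s + 1 := by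
    rw [hY, card_union_of_disjoint, card_image_of_injective, card_image_of_injective, card_range,
      hk]
    · intro i j h
      have := Nat.eq_of_mul_eq_mul_left (show 0 < c by omega) h
      omega
    · intro i j h
      exact Nat.add_right_cancel h
    · rw [Finset.disjoint_left]
      intro y h1 h2
      obtain ⟨x, hx, rfl⟩ := mem_image.1 h1
      obtain ⟨j, _, hj⟩ := mem_image.1 h2
      have h3 := hfar j
      have h4 := hXL x (hX'X x hx)
      omega
  have hgap : ∀ x ∈ Y, ∀ x' ∈ Y, x < x' → x + G ≤ x' := by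
    intro y hy y' hy' hlt
    rcases hYcases y hy with ⟨x, hx, rfl⟩ | ⟨j, rfl⟩
    · rcases hYcases y' hy' with ⟨x', hx', rfl⟩ | ⟨j', rfl⟩
      · have := (mem_filter.1 hx').2 x (hX'X x hx) (by omega)
        omega
      · have h3 := hfar j'
        have h4 := hXL x (hX'X x hx)
        omega
    · rcases hYcases y' hy' with ⟨x', hx', rfl⟩ | ⟨j', rfl⟩
      · have h3 := hfar j
        have h4 := hXL x' (hX'X x' hx')
        omega
      · have h3 : j < j' := by
          by_contra hcon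
          have := Nat.mul_le_mul_left c (show j' + 1 ≤ j + 1 by omega)
          omega
        have h4 := Nat.mul_le_mul_left c (show j + 1 + 1 ≤ j' + 1 by omega)
        rw [mul_add c (j + 1) 1, mul_one] at h4
        omega
  obtain ⟨H, h0, h1, h2, h3⟩ := hG Y hcard hgap I
  have hcY : c ≤ Y.sup id := by
    have h4 : c * (0 + 1) ∈ Y :=
      mem_union.2 (Or.inr (mem_image.2 ⟨0, mem_range.2 (Nat.succ_pos k), rfl⟩))
    have h5 := Finset.le_sup (f := id) h4
    simp only [id, zero_add, mul_one] at h5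
    exact h5
  have hHcases : ∀ h ∈ H, (∃ x ∈ X', x + s * G ≤ h ∧ h ≤ x + s * G + w₀) ∨ c ≤ h := by
    intro h hh
    obtain ⟨y, hy, h4, h5⟩ := h1 h hh
    rcases hYcases y hy with ⟨x, hx, rfl⟩ | ⟨j, rfl⟩
    · exact Or.inl ⟨x, hx, h4, h5⟩
    · exact Or.inr ((hfar j).trans h4)
  refine ⟨H.filter (fun h => h ≤ L), (card_le_card (filter_subset _ _)).trans h0, ?_, ?_,
    h3.mono ?_⟩
  · intro h hh
    obtain ⟨hh1, hh2⟩ := mem_filter.1 hh
    rcases hHcases h hh1 with ⟨x, hx, h4, h5⟩ | h4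
    · exact ⟨x, hX'X x hx, by omega, by omega⟩
    · omega
  · intro x hx
    obtain ⟨x', hx', h4, h5⟩ := hmerge x hx
    refine (h2 (x' + s * G) (mem_union.2 (Or.inl (mem_image_of_mem _ hx')))).trans ?_
    refine card_le_card fun h hh => ?_
    obtain ⟨hh1, hh2, hh3⟩ := mem_filter.1 hh
    have h6 := hXL x' (hX'X x' hx')
    exact mem_filter.2 ⟨mem_filter.2 ⟨hh1, by omega⟩, by omega, by omega⟩
  · rintro n ⟨hn1, hn2⟩
    refine ⟨fun h hh => hn1 h (mem_filter.1 hh).1, fun p hp1 hp2 => ?_⟩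
    rw [hn2 p (by omega) (by omega)]
    constructor
    · rintro ⟨h, hh, rfl⟩
      refine ⟨h, mem_filter.2 ⟨hh, ?_⟩, rfl⟩
      rcases hHcases h hh with ⟨x, hx, h4, h5⟩ | h4
      · have h6 := hXL x (hX'X x hx)
        omega
      · omega
    · rintro ⟨h, hh, rfl⟩
      exact ⟨h, (mem_filter.1 hh).1, rfl⟩

/-- The main theorem: `Q` depends on `s` and `r` only, `w` on `s`, `r` and `m`. -/
theorem hausdorff (s r : ℕ) : ∃ Q : ℕ, ∀ m : ℕ, 0 < m → ∃ w : ℕ, ∀ v : ℕ, v.Coprime m →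
    ∀ X : Finset ℕ, X.card ≤ s → ∀ I : ℕ, Real Q r m v w I X := by
  classical
  obtain ⟨Q, hQ⟩ := hausdorff₀ s r
  refine ⟨Q, fun m hm => ?_⟩
  have h1 : ∀ v : ℕ, ∃ w : ℕ, v.Coprime m → ∀ X : Finset ℕ, X.card ≤ s → ∀ I : ℕ,
      Real Q r m v w I X := by
    intro v
    by_cases hv : v.Coprime m
    · obtain ⟨w, hw⟩ := hQ m v hm hv
      exact ⟨w, fun _ => hw⟩
    · exact ⟨0, fun h => absurd h hv⟩
  choose w hw using h1
  refine ⟨∑ v ∈ range m, w v, fun v hv X hX I => ?_⟩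
  have hv' : (v % m).Coprime m := by
    have : Nat.gcd (v % m) m = Nat.gcd v m := (Nat.mod_modEq v m).gcd_eq
    unfold Nat.Coprime at hv ⊢
    rw [this, hv]
  have hle : w (v % m) ≤ ∑ v ∈ range m, w v :=
    single_le_sum (f := w) (fun _ _ => Nat.zero_le _) (mem_range.2 (Nat.mod_lt _ hm))
  obtain ⟨H, a0, a1, a2, a3⟩ := (hw (v % m) hv' X hX (I + ∑ v ∈ range m, w v)).mono
    (w' := ∑ v ∈ range m, w v) (I' := I) hle (by omega)
  refine ⟨H, a0, a1, a2, a3.mono ?_⟩
  rintro n ⟨hn1, hn2⟩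
  exact ⟨fun h hh => (hn1 h hh).trans (Nat.mod_modEq v m), hn2⟩

end Pool.Agent.Helper73.MX
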