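import Mathlib

/-!
# MX: a tree lemma, and a rapidly growing sequence of scales
-/

set_option autoImplicit false

namespace Pool.Agent.Helper73.MX

open Finset

/-- A set of more than `(|Z| - 1) ^ ℓ` words of length `ℓ` has a node all of whose `|Z|` children
are extended by words of the set (the top level is the last index). -/
theorem node {Z : Type} [Fintype Z] [DecidableEq Z] (ℓ : ℕ) (S : Finset (Fin ℓ → Z))
    (h : (Fintype.card Z - 1) ^ ℓ < S.card) :
    ∃ (t : Fin ℓ) (v : Fin ℓ → Z), ∀ z : Z, ∃ a ∈ S, a t = z ∧ ∀ i, t < i → a i = v i := by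
  induction ℓ with
  | zero =>
    exfalso
    have h1 : S.card ≤ Fintype.card (Fin 0 → Z) := card_le_univ S
    rw [Fintype.card_fun] at h1
    simp at h h1
    omega
  | succ ℓ ih =>
    have hne : S.Nonempty := card_pos.1 (lt_of_le_of_lt (Nat.zero_le _) h)
    by_cases hall : ∀ z : Z, ∃ a ∈ S, a (Fin.last ℓ) = z
    · obtain ⟨a₀, _⟩ := hne
      refine ⟨Fin.last ℓ, a₀, fun z => ?_⟩
      obtain ⟨a, ha, haz⟩ := hall z
      exact ⟨a, ha, haz, fun i hi => absurd hi (not_lt.2 (Fin.le_last i))⟩
    · push Not at hall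
      obtain ⟨z₀, hz₀⟩ := hall
      have h1 : ∃ z : Z, (Fintype.card Z - 1) ^ ℓ <
          (S.filter (fun a => a (Fin.last ℓ) = z)).card := by
        by_contra hcon
        push Not at hcon
        have h2 : S.card = ∑ z ∈ (univ : Finset Z).erase z₀,
            (S.filter (fun a => a (Fin.last ℓ) = z)).card :=
          card_eq_sum_card_fiberwise fun a ha => by
            rw [Finset.mem_coe, mem_erase]
            exact ⟨hz₀ a ha, mem_univ _⟩
        have h3 : ∑ z ∈ (univ : Finset Z).erase z₀,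
            (S.filter (fun a => a (Fin.last ℓ) = z)).card ≤
            ((univ : Finset Z).erase z₀).card • (Fintype.card Z - 1) ^ ℓ :=
          sum_le_card_nsmul _ _ _ fun z _ => hcon z
        rw [card_erase_of_mem (mem_univ _), card_univ, smul_eq_mul, ← pow_succ'] at h3
        omega
      obtain ⟨z, hz⟩ := h1
      set S' : Finset (Fin ℓ → Z) :=
        (S.filter (fun a => a (Fin.last ℓ) = z)).image (fun a => (Fin.init a : Fin ℓ → Z)) with hS'
      have hcard : S'.card = (S.filter (fun a => a (Fin.last ℓ) = z)).card := by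
        refine card_image_of_injOn fun a ha b hb hab => ?_
        have ha' := (mem_filter.1 (Finset.mem_coe.1 ha)).2
        have hb' := (mem_filter.1 (Finset.mem_coe.1 hb)).2
        rw [← Fin.snoc_init_self a, ← Fin.snoc_init_self b, ha', hb', show
          (Fin.init a : Fin ℓ → Z) = Fin.init b from hab]
      obtain ⟨t, v, htv⟩ := ih S' (by rw [hcard]; exact hz)
      refine ⟨t.castSucc, (Fin.snoc v z : Fin (ℓ + 1) → Z), fun z' => ?_⟩
      obtain ⟨b, hb, hbz, hbv⟩ := htv z'
      obtain ⟨a, ha, rfl⟩ := mem_image.1 hb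
      obtain ⟨haS, haz⟩ := mem_filter.1 ha
      refine ⟨a, haS, hbz, fun i hi => ?_⟩
      induction i using Fin.lastCases with
      | last => rw [haz, Fin.snoc_last]
      | cast i =>
        rw [Fin.snoc_castSucc, ← hbv i (Fin.castSucc_lt_castSucc_iff.1 hi)]
        rfl

/-- rapidly growing scales -/
theorem tower (g M r : ℕ) (F : ℕ → ℕ) (Sc : Set ℕ) (hSc : Sc.Infinite) :
    ∃ D E A B : ℕ → ℕ, A 0 = g ∧ (∀ i, A (i + 1) = A i + D i * M + E i * r) ∧
      (∀ i, B i + F (D i) ≤ B (i + 1)) ∧ (∀ i, D i ∈ Sc) ∧ (∀ i, A i + B i < E i) ∧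
      (∀ i, E i * r + A i + B i < D i) ∧ ∀ i, F (E i * r + A i) < D i := by
  have hd : ∀ n : ℕ, ∃ d ∈ Sc, n < d := fun n => hSc.exists_gt n
  choose d hd1 hd2 using hd
  let e : ℕ × ℕ → ℕ := fun s => s.1 + s.2 + 1
  let dd : ℕ × ℕ → ℕ := fun s => d (F (e s * r + s.1) + e s * r + s.1 + s.2)
  let st : ℕ → ℕ × ℕ := fun n =>
    Nat.rec (g, 0) (fun _ s => (s.1 + dd s * M + e s * r, s.2 + F (dd s))) n
  have hst : ∀ n, st (n + 1) = ((st n).1 + dd (st n) * M + e (st n) * r,
    (st n).2 + F (dd (st n))) := fun n => rfl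
  refine ⟨fun i => dd (st i), fun i => e (st i), fun i => (st i).1, fun i => (st i).2, rfl,
    fun i => ?_, fun i => ?_, fun i => hd1 _, fun i => ?_, fun i => ?_, fun i => ?_⟩
  · exact congrArg Prod.fst (hst i)
  · exact (congrArg Prod.snd (hst i)).ge
  · exact Nat.lt_succ_self _
  · refine lt_of_le_of_lt ?_ (hd2 _)
    change e (st i) * r + (st i).1 + (st i).2 ≤
      F (e (st i) * r + (st i).1) + e (st i) * r + (st i).1 + (st i).2
    omega
  · refine lt_of_le_of_lt ?_ (hd2 _)
    change F (e (st i) * r + (st i).1) ≤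
      F (e (st i) * r + (st i).1) + e (st i) * r + (st i).1 + (st i).2
    omega

/-- digits are separated -/
theorem dig {D E A B r x y x' y' : ℕ} (hE : A + B < E) (hD : E * r + A + B < D) (hy : y ≤ r)
    (hy' : y' ≤ r) (hne : (x, y) ≠ (x', y')) :
    D * x + E * y + A + B < D * x' + E * y' ∨ D * x' + E * y' + A + B < D * x + E * y := by
  have h1 : E * y ≤ E * r := Nat.mul_le_mul_left _ hy
  have h2 : E * y' ≤ E * r := Nat.mul_le_mul_left _ hy'
  rcases lt_trichotomy x x' with h | h | h
  · left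
    have h3 : D * (x + 1) ≤ D * x' := Nat.mul_le_mul_left _ h
    rw [mul_add, mul_one] at h3
    omega
  · subst h
    rcases lt_trichotomy y y' with h | h | h
    · left
      have h3 : E * (y + 1) ≤ E * y' := Nat.mul_le_mul_left _ h
      rw [mul_add, mul_one] at h3
      omega
    · exact absurd (by rw [h]) hne
    · right
      have h3 : E * (y' + 1) ≤ E * y := Nat.mul_le_mul_left _ h
      rw [mul_add, mul_one] at h3
      omega
  · right
    have h3 : D * (x' + 1) ≤ D * x := Nat.mul_le_mul_left _ h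
    rw [mul_add, mul_one] at h3
    omega

/-- a finite set of multiples of `W` is admissible if `W` is divisible by all primes up to its
size -/
theorem adm (U : Finset ℕ) (W Q : ℕ) (hU : ∀ h ∈ U, W ∣ h) (hQ : U.card ≤ Q)
    (hW : Q.factorial ∣ W) (p : ℕ) (hp : p.Prime) : ∃ r : ℕ, ∀ h ∈ U, ¬ p ∣ r + h := by
  by_cases hpW : p ∣ W
  · refine ⟨1, fun h hh hd => hp.one_lt.ne' ?_⟩
    have h1 : p ∣ h := hpW.trans (hU h hh)
    exact Nat.dvd_one.1 ((Nat.dvd_add_left h1).1 hd)
  · have hpQ : Q < p := by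
      by_contra hcon
      exact hpW ((hp.dvd_factorial.2 (not_lt.1 hcon)).trans hW)
    obtain ⟨r, hr, hr'⟩ := exists_mem_notMem_of_card_lt_card
      (s := U.image (fun h => (p - h % p) % p)) (t := range p)
      (lt_of_le_of_lt (card_image_le.trans hQ) (by rwa [card_range]))
    refine ⟨r, fun h hh hd => hr' (mem_image.2 ⟨h, hh, ?_⟩)⟩
    have hrp := mem_range.1 hr
    have hhp : h % p < p := Nat.mod_lt _ hp.pos
    have h1 : (r + h % p) % p = 0 := by
      rw [Nat.add_mod_mod]
      exact Nat.eq_zero_of_dvd_of_lt ((Nat.dvd_mod_iff dvd_rfl).2 hd) (Nat.mod_lt _ hp.pos)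
    obtain ⟨c, hc⟩ := Nat.dvd_of_mod_eq_zero h1
    rcases Nat.eq_zero_or_pos (h % p) with h0 | h0
    · rw [h0, add_zero] at hc
      rw [h0, Nat.sub_zero, Nat.mod_self]
      rcases Nat.eq_zero_or_pos c with hc0 | hc0
      · rw [hc, hc0, mul_zero]
      · have := Nat.le_mul_of_pos_right p hc0
        omega
    · have hc1 : c = 1 := by
        have h2 : p * c < p * 2 := by omega
        have h3 : c < 2 := Nat.lt_of_mul_lt_mul_left h2
        have h4 : c ≠ 0 := by
          rintro rfl
          omega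
        omega
      rw [hc1, mul_one] at hc
      rw [Nat.mod_eq_of_lt (by omega)]
      omega

end Pool.Agent.Helper73.MX
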