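import Pool.Agent.Helper73.MX.Tree

/-!
# MX: all spread out sets are realised up to a bounded error
-/

set_option autoImplicit false

namespace Pool.Agent.Helper73.MX

open Finset

/-- `X` is realised with error `w` and isolation `I`, with at least `r` primes near each point
and at most `Q` primes -/
def Real (Q r m v w I : ℕ) (X : Finset ℕ) : Prop :=
  ∃ H : Finset ℕ, H.card ≤ Q ∧ (∀ h ∈ H, ∃ x ∈ X, x ≤ h ∧ h ≤ x + w) ∧
    (∀ x ∈ X, r ≤ (H.filter (fun h => x ≤ h ∧ h ≤ x + w)).card) ∧
    Many {n : ℕ | (∀ h ∈ H, n + h ≡ v [MOD m]) ∧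
      ∀ p : ℕ, n ≤ p + I → p ≤ n + X.sup id + w + I → (p.Prime ↔ ∃ h ∈ H, p = n + h)}

theorem spread (s : ℕ) (hs : 0 < s) (r : ℕ) : ∃ Q : ℕ, ∀ m v : ℕ, 0 < m → v.Coprime m →
    ∃ w G : ℕ, ∀ X : Finset ℕ, X.card = s → (∀ x ∈ X, ∀ x' ∈ X, x < x' → x + G ≤ x') →
      ∀ I : ℕ, Real Q r m v w I X := by
  classical
  have : Nonempty (Fin s) := ⟨⟨0, hs⟩⟩
  obtain ⟨ℓ, Q, htreeQ⟩ := tree (Fin s × Fin (r + 1))
  refine ⟨Q, fun m v hm hv => ?_⟩
  by_contra hcon
  push Not at hcon
  choose bad hcard hgap iso hbad using hcon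
  obtain ⟨g, htree⟩ := htreeQ m hm
  let e : ℕ × ℕ → ℕ := fun q => q.1 + q.2 + 1
  let w : ℕ × ℕ → ℕ := fun q => e q * r + q.1
  let X : ℕ × ℕ → Finset ℕ := fun q => bad (w q) (w q + q.2 + 1)
  let II : ℕ × ℕ → ℕ := fun q => iso (w q) (w q + q.2 + 1)
  let st : ℕ → ℕ × ℕ := fun n =>
    Nat.rec (g, 0) (fun _ q => (q.1 + (X q).sup id + e q * r, q.2 + II q)) n
  let en : (q : ℕ × ℕ) → Fin s ↪o ℕ := fun q => (X q).orderEmbOfFin (hcard _ _)
  let dv : ℕ → Fin s × Fin (r + 1) → ℕ := fun k z => en (st k) z.1 + e (st k) * z.2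
  have hA : ∀ i, (st (i + 1)).1 = (st i).1 + (X (st i)).sup id + e (st i) * r := fun i => rfl
  have hB : ∀ i, (st (i + 1)).2 = (st i).2 + II (st i) := fun i => rfl
  have henmem : ∀ q z, en q z ∈ X q := fun q z => Finset.orderEmbOfFin_mem _ _ _
  have hensup : ∀ q z, en q z ≤ (X q).sup id := fun q z => Finset.le_sup (f := id) (henmem q z)
  have hyr : ∀ (k : ℕ) (y : Fin (r + 1)), e (st k) * y ≤ e (st k) * r := fun k y =>
    Nat.mul_le_mul_left _ (by have := y.2; omega)
  have hsepx : ∀ k (i j : Fin s), i < j → en (st k) i + (w (st k) + (st k).2 + 1) ≤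
      en (st k) j := fun k i j hij =>
    hgap _ _ _ (henmem _ i) _ (henmem _ j) ((en (st k)).lt_iff_lt.2 hij)
  have hsep : ∀ k z z', z ≠ z' → (st k).1 + (st k).2 + dv k z < dv k z' ∨
      (st k).1 + (st k).2 + dv k z' < dv k z := by
    rintro k ⟨i, y⟩ ⟨i', y'⟩ hne
    have h1 := hyr k y
    have h2 := hyr k y'
    simp only [dv]
    rcases lt_trichotomy i i' with h | h | h
    · left
      have h3 := hsepx k i i' h
      simp only [w] at h3
      omega
    · subst h
      rcases lt_trichotomy y y' with h | h | h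
      · left
        have h3 : e (st k) * ((y : ℕ) + 1) ≤ e (st k) * y' := Nat.mul_le_mul_left _ h
        rw [mul_add, mul_one] at h3
        have h4 : (st k).1 + (st k).2 < e (st k) := Nat.lt_succ_self _
        omega
      · exact absurd (by rw [h]) hne
      · right
        have h3 : e (st k) * ((y' : ℕ) + 1) ≤ e (st k) * y := Nat.mul_le_mul_left _ h
        rw [mul_add, mul_one] at h3
        have h4 : (st k).1 + (st k).2 < e (st k) := Nat.lt_succ_self _
        omega
    · right
      have h3 := hsepx k i' i h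
      simp only [w] at h3
      omega
  obtain ⟨t, ht, b, R, T, hTex, hTQ, hb, hR, hmT, hall, hloc⟩ := htree v hv dv (fun k => (st k).1)
    (fun k => (st k).2) rfl (fun k z => by
      have h1 := hyr k z.2
      have h2 := hensup (st k) z.1
      have h3 := hA k
      simp only [dv]
      omega)
    (monotone_nat_of_le_succ fun k => by
      have := hB k
      omega) hsep
  have hBt : (st (t + 1)).2 ≤ (st ℓ).2 :=
    monotone_nat_of_le_succ (f := fun k => (st k).2) (fun k => by
      have := hB k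
      omega) ht
  set q := st t with hq
  set I := II q with hI
  have hA1 := hA t
  have hB1 := hB t
  rw [← hq] at hA1 hB1
  rw [← hI] at hB1
  have hw : w q = e q * r + q.1 := rfl
  refine hbad (w q) (w q + q.2 + 1) ?_
  change Real Q r m v (w q) I (X q)
  have hwin : ∀ h ∈ T, b ≤ h + I → h ≤ b + (X q).sup id + w q + I →
      ∃ z : Fin s × Fin (r + 1), b + dv t z < h ∧ h ≤ b + dv t z + q.1 := by
    intro h hh h1 h2
    exact hloc h hh (by omega) (by omega)
  refine ⟨(T.filter (fun h => b ≤ h ∧ h ≤ b + (X q).sup id + w q)).image (fun h => h - b),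
    card_image_le.trans ((card_le_card (filter_subset _ _)).trans hTQ), ?_, ?_, ?_⟩
  · intro h' hh'
    obtain ⟨h, hh, rfl⟩ := mem_image.1 hh'
    obtain ⟨h1, h2, h3⟩ := mem_filter.1 hh
    obtain ⟨z, h4, h5⟩ := hwin h h1 (by omega) (by omega)
    have h6 : e q * z.2 ≤ e q * r := hyr t z.2
    have h4' : b + (en q z.1 + e q * z.2) < h := h4
    have h5' : h ≤ b + (en q z.1 + e q * z.2) + q.1 := h5
    exact ⟨en q z.1, henmem q z.1, by omega, by omega⟩
  · intro x hx
    obtain ⟨i, hi⟩ : ∃ i : Fin s, en q i = x := by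
      have h1 : x ∈ Set.range (en q) := by
        change x ∈ Set.range ((X q).orderEmbOfFin (hcard _ _))
        rw [Finset.range_orderEmbOfFin]
        exact Finset.mem_coe.2 hx
      exact h1
    subst hi
    choose c hcT hc1 hc2 using hall
    have hdv : ∀ y : Fin (r + 1), dv t (i, y) = en q i + e q * y := fun y => rfl
    have hinj : Set.InjOn (fun y : Fin (r + 1) => c (i, y) - b) (univ : Finset (Fin (r + 1))) := by
      intro y _ y' _ h
      simp only at h
      have e1 := hc1 (i, y)
      have e2 := hc2 (i, y)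
      have e3 := hc1 (i, y')
      have e4 := hc2 (i, y')
      rw [hdv] at e1 e2 e3 e4
      have h4 : q.1 + q.2 < e q := Nat.lt_succ_self _
      rcases lt_trichotomy y y' with h' | h' | h'
      · have h3 : e q * ((y : ℕ) + 1) ≤ e q * y' := Nat.mul_le_mul_left _ h'
        rw [mul_add, mul_one] at h3
        omega
      · exact h'
      · have h3 : e q * ((y' : ℕ) + 1) ≤ e q * y := Nat.mul_le_mul_left _ h'
        rw [mul_add, mul_one] at h3
        omega
    calc r ≤ (univ : Finset (Fin (r + 1))).card := by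
          rw [card_univ, Fintype.card_fin]
          exact Nat.le_succ r
      _ = (univ.image (fun y : Fin (r + 1) => c (i, y) - b)).card :=
          (card_image_of_injOn hinj).symm
      _ ≤ _ := by
          refine card_le_card fun h' hh' => ?_
          obtain ⟨y, _, rfl⟩ := mem_image.1 hh'
          have e1 := hc1 (i, y)
          have e2 := hc2 (i, y)
          rw [hdv] at e1 e2
          have h6 := hyr t y
          rw [← hq] at h6
          have h7 := hensup q i
          refine mem_filter.2 ⟨mem_image.2 ⟨c (i, y), mem_filter.2 ⟨hcT _, ?_, ?_⟩, rfl⟩, ?_, ?_⟩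
          all_goals omega
  · refine hTex.map (fun n => n + b) b (fun x _ y _ h => Nat.add_right_cancel h)
      (fun n _ => le_rfl) ?_
    rintro n ⟨hnv, hn⟩
    refine ⟨?_, ?_⟩
    · intro h' hh'
      obtain ⟨h, hh, rfl⟩ := mem_image.1 hh'
      obtain ⟨h1, h2, h3⟩ := mem_filter.1 hh
      obtain ⟨c, hc⟩ := hmT h h1
      have h4 : n + b + (h - b) = n + h := by omega
      rw [h4, hc]
      calc n + m * c ≡ n + 0 [MOD m] :=
            Nat.ModEq.add_left n ((Nat.modEq_zero_iff_dvd).2 (dvd_mul_right m c))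
        _ ≡ v [MOD m] := by rw [add_zero]; exact hnv
    · intro p hp1 hp2
      constructor
      · intro hp
        have h1 : n ≤ p := by omega
        obtain ⟨h, rfl⟩ := Nat.exists_eq_add_of_le h1
        have hhT : h ∈ T := (hn h (by omega)).1 hp
        obtain ⟨z, h4, h5⟩ := hwin h hhT (by omega) (by omega)
        have h6 : e q * z.2 ≤ e q * r := hyr t z.2
        have h7 := hensup q z.1
        have h4' : b + (en q z.1 + e q * z.2) < h := h4
        have h5' : h ≤ b + (en q z.1 + e q * z.2) + q.1 := h5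
        exact ⟨h - b, mem_image.2 ⟨h, mem_filter.2 ⟨hhT, by omega, by omega⟩, rfl⟩, by omega⟩
      · rintro ⟨h', hh', hp⟩
        obtain ⟨h, hh, rfl⟩ := mem_image.1 hh'
        obtain ⟨h1, h2, h3⟩ := mem_filter.1 hh
        have h4 : p = n + h := by omega
        rw [h4]
        exact (hn h (by omega)).2 h1

end Pool.Agent.Helper73.MX
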