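import Pool.Agent.Helper73.MX.Base
import Pool.Agent.Helper73.MX.Node

/-!
# MX: the tree argument
-/

set_option autoImplicit false

namespace Pool.Agent.Helper73.MX

open Finset

section sums

variable {Z : Type} {A : ℕ → ℕ} {g : ℕ} {dv : ℕ → Z → ℕ}

lemma low (hA0 : A 0 = g) (hA : ∀ i z, A i + dv i z ≤ A (i + 1)) (a : ℕ → Z) (n : ℕ) :
    ∑ k ∈ range n, dv k (a k) + g ≤ A n := by
  induction n with
  | zero => simp [hA0]
  | succ n ih =>
    rw [sum_range_succ]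
    have h1 := hA n (a n)
    omega

lemma mid (hA : ∀ i z, A i + dv i z ≤ A (i + 1)) (a : ℕ → Z) (t i : ℕ) (hti : t ≤ i) :
    A t + ∑ k ∈ Ico t i, dv k (a k) ≤ A i := by
  induction i, hti using Nat.le_induction with
  | base => simp
  | succ n hn ih =>
    rw [sum_Ico_succ_top hn]
    have h1 := hA n (a n)
    omega

lemma split (f : ℕ → ℕ) {i ℓ : ℕ} (h : i < ℓ) :
    ∑ k ∈ range ℓ, f k = ∑ k ∈ range i, f k + (f i + ∑ k ∈ Ico (i + 1) ℓ, f k) := by
  rw [← sum_eq_sum_Ico_succ_bot h f, range_eq_Ico, range_eq_Ico,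
    sum_Ico_consecutive f (Nat.zero_le i) h.le]

lemma splitI (f : ℕ → ℕ) {a i ℓ : ℕ} (ha : a ≤ i) (h : i < ℓ) :
    ∑ k ∈ Ico a ℓ, f k = ∑ k ∈ Ico a i, f k + (f i + ∑ k ∈ Ico (i + 1) ℓ, f k) := by
  rw [← sum_eq_sum_Ico_succ_bot h f, sum_Ico_consecutive f ha h.le]

end sums

lemma top_diff {Z : Type} (x y : ℕ → Z) (T₀ ℓ : ℕ) (h : ∃ k < ℓ, T₀ ≤ k ∧ x k ≠ y k) :
    ∃ i < ℓ, T₀ ≤ i ∧ x i ≠ y i ∧ ∀ k, i < k → k < ℓ → x k = y k := by
  classical
  obtain ⟨k₀, hk₀, hk₁, hk₂⟩ := h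
  set S := (range ℓ).filter (fun k => T₀ ≤ k ∧ x k ≠ y k) with hS
  have hne : S.Nonempty := ⟨k₀, mem_filter.2 ⟨mem_range.2 hk₀, hk₁, hk₂⟩⟩
  obtain ⟨hm1, hm2, hm3⟩ := mem_filter.1 (S.max'_mem hne)
  refine ⟨S.max' hne, mem_range.1 hm1, hm2, hm3, fun k hk hkℓ => ?_⟩
  by_contra hne'
  have : k ∈ S := mem_filter.2 ⟨mem_range.2 hkℓ, hm2.trans hk.le, hne'⟩
  exact absurd (S.le_max' k this) (not_le.2 hk)

/-- The tree argument: `Z` is the set of digits, `dv k z` the value of the digit `z` at level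
`k`, `A k` the diameter of a node of level `k` and `B k` the isolation below level `k`. -/
theorem tree (Z : Type) [Fintype Z] [Nonempty Z] : ∃ ℓ Q : ℕ, ∀ m : ℕ, 0 < m → ∃ g : ℕ,
    ∀ (v : ℕ), v.Coprime m → ∀ (dv : ℕ → Z → ℕ) (A B : ℕ → ℕ), A 0 = g →
      (∀ i z, A i + dv i z ≤ A (i + 1)) → Monotone B →
      (∀ i z z', z ≠ z' → A i + B i + dv i z < dv i z' ∨ A i + B i + dv i z' < dv i z) →
      ∃ t < ℓ, ∃ (b R : ℕ) (T : Finset ℕ), Ex m v R T ∧ T.card ≤ Q ∧ B ℓ ≤ b ∧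
        b + A (t + 1) + B ℓ < R ∧ (∀ h ∈ T, m ∣ h) ∧ (∀ z, ∃ h ∈ T, b + dv t z < h ∧ h ≤ b + dv t z + A t) ∧
        ∀ h ∈ T, b ≤ h + B (t + 1) → h ≤ b + A (t + 1) + B (t + 1) →
          ∃ z, b + dv t z < h ∧ h ≤ b + dv t z + A t := by
  classical
  obtain ⟨δ, hδ, K, hK, hbase⟩ := base
  set s := Fintype.card Z with hs
  have hspos : 0 < s := Fintype.card_pos
  have hs' : (0 : ℝ) < s := by exact_mod_cast hspos
  obtain ⟨ℓ, hℓ⟩ : ∃ ℓ : ℕ, (((s - 1 : ℕ) : ℝ)) ^ ℓ < δ * (s : ℝ) ^ ℓ := by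
    obtain ⟨ℓ, h⟩ := exists_pow_lt_of_lt_one hδ (show ((s - 1 : ℕ) : ℝ) / s < 1 by
      rw [div_lt_one hs']
      exact_mod_cast (by omega : s - 1 < s))
    refine ⟨ℓ, ?_⟩
    rwa [div_pow, div_lt_iff₀ (by positivity)] at h
  have hcardL : Fintype.card (Fin ℓ → Z) = s ^ ℓ := by
    rw [Fintype.card_fun, Fintype.card_fin]
  set J := s ^ ℓ with hJ
  let e : (Fin ℓ → Z) ≃ Fin J := Fintype.equivFinOfCardEq hcardL
  let lf : ℕ → (Fin ℓ → Z) := fun j => if hj : j < J then e.symm ⟨j, hj⟩ else Classical.arbitrary _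
  have hlf : ∀ a : Fin ℓ → Z, lf (e a) = a := fun a => by
    simp only [lf, (e a).2, dite_true, Fin.eta, Equiv.symm_apply_apply]
  have hlfinj : ∀ i j, i < J → j < J → lf i = lf j → i = j := by
    intro i j hi hj h
    simp only [lf, hi, hj, dite_true] at h
    have := e.symm.injective h
    exact congrArg Fin.val this
  set Q := ∑ j ∈ range J, K j with hQ
  refine ⟨ℓ, Q, fun m hm => ?_⟩
  set W := m * Q.factorial with hW
  have hWpos : 0 < W := Nat.mul_pos hm (Nat.factorial_pos Q)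
  set g := W * Q with hg
  refine ⟨g, fun v hv dv A B hA0 hA hBmono hsep => ?_⟩
  have hAmono : Monotone A := monotone_nat_of_le_succ fun i => by
    have := hA i (Classical.arbitrary Z)
    omega
  set O := B ℓ with hO
  let ext : (Fin ℓ → Z) → ℕ → Z := fun a k => if h : k < ℓ then a ⟨k, h⟩ else Classical.arbitrary Z
  have hextne : ∀ a a' : Fin ℓ → Z, a ≠ a' → ∃ k < ℓ, 0 ≤ k ∧ ext a k ≠ ext a' k := by
    intro a a' hne
    by_contra hcon
    push Not at hcon
    refine hne (funext fun k => ?_)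
    have := hcon k k.2 (Nat.zero_le _)
    simpa only [ext, k.2, dite_true, Fin.eta] using this
  let P : (Fin ℓ → Z) → ℕ := fun a => ∑ k ∈ range ℓ, dv k (ext a k)
  let H : ℕ → Finset ℕ := fun j => (range (K j)).image (fun i => W * ((O + P (lf j)) / W + 1 + i))
  have hHmem : ∀ j < J, ∀ h ∈ H j, O + P (lf j) < h ∧ h ≤ O + P (lf j) + g ∧ W ∣ h := by
    intro j hj h hh
    obtain ⟨i, hi, rfl⟩ := mem_image.1 hh
    have hi' := mem_range.1 hi
    have h1 := Nat.div_add_mod (O + P (lf j)) W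
    have h2 := Nat.mod_lt (O + P (lf j)) hWpos
    have h3 : K j ≤ Q := single_le_sum (f := K) (fun _ _ => Nat.zero_le _) (mem_range.2 hj)
    refine ⟨?_, ?_, dvd_mul_right _ _⟩
    · rw [mul_add, mul_add, mul_one]
      omega
    · have h4 : W * (1 + i) ≤ W * Q := Nat.mul_le_mul_left _ (by omega)
      rw [add_assoc, mul_add, hg]
      omega
  -- localisation
  have loc : ∀ (a : Fin ℓ → Z) (i : ℕ), i < ℓ → ∀ h, O + P a < h → h ≤ O + P a + g →
      O + ∑ k ∈ Ico (i + 1) ℓ, dv k (ext a k) + dv i (ext a i) < h ∧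
      h ≤ O + ∑ k ∈ Ico (i + 1) ℓ, dv k (ext a k) + dv i (ext a i) + A i := by
    intro a i hi h h1 h2
    have h3 : P a = _ := split (fun k => dv k (ext a k)) hi
    have h4 := low hA0 hA (ext a) i
    beta_reduce at h3
    omega
  have disj : ∀ a a' : Fin ℓ → Z, a ≠ a' → ∀ h, O + P a < h → h ≤ O + P a + g →
      O + P a' < h → h ≤ O + P a' + g → False := by
    intro a a' hne h h1 h2 h3 h4
    obtain ⟨i, hi, _, hne', htop⟩ := top_diff _ _ 0 ℓ (hextne a a' hne)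
    obtain ⟨l1, l2⟩ := loc a i hi h h1 h2
    obtain ⟨l3, l4⟩ := loc a' i hi h h3 h4
    have hsum : ∑ k ∈ Ico (i + 1) ℓ, dv k (ext a k) = ∑ k ∈ Ico (i + 1) ℓ, dv k (ext a' k) :=
      sum_congr rfl fun k hk => by
        rw [mem_Ico] at hk
        rw [htop k hk.1 hk.2]
    rw [hsum] at l1 l2
    rcases hsep i _ _ hne' with h5 | h5
    · omega
    · omega
  set R := O + A ℓ + B ℓ + 1 with hR
  have hPlow : ∀ a : Fin ℓ → Z, P a + g ≤ A ℓ := fun a => low hA0 hA (ext a) ℓ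
  obtain ⟨T, hTH, hThits, hTex⟩ := hbase J H R m v hm
    (by
      intro j _
      refine (card_image_of_injective _ fun i i' h => ?_).trans (card_range _)
      have := Nat.eq_of_mul_eq_mul_left hWpos h
      omega)
    (by
      intro i hi j hj hij
      rw [Finset.disjoint_left]
      intro h h1 h2
      obtain ⟨a1, a2, _⟩ := hHmem i hi h h1
      obtain ⟨a3, a4, _⟩ := hHmem j hj h h2
      exact disj (lf i) (lf j) (fun hc => hij (hlfinj i j hi hj hc)) h a1 a2 a3 a4)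
    (by
      intro j hj h hh
      obtain ⟨a1, a2, _⟩ := hHmem j hj h hh
      have := hPlow (lf j)
      omega)
    (by
      intro p hp
      obtain ⟨r', hr'⟩ := adm ((range J).biUnion H) W Q (by
          intro h hh
          obtain ⟨j, hj, hjh⟩ := mem_biUnion.1 hh
          exact (hHmem j (mem_range.1 hj) h hjh).2.2) (by
          refine card_biUnion_le.trans (sum_le_sum fun j _ => ?_)
          exact card_image_le.trans (card_range _).le) (dvd_mul_left _ _) p hp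
      exact ⟨r', fun j hj h hh => hr' h (mem_biUnion.2 ⟨j, mem_range.2 hj, hh⟩)⟩)
    (by
      intro j hj h hh
      obtain ⟨_, _, a3⟩ := hHmem j hj h hh
      obtain ⟨c, hc⟩ := (dvd_mul_right m Q.factorial).trans a3
      rw [hc]
      exact (Nat.coprime_add_mul_left_left v m c).2 hv)
  -- the node
  set S : Finset (Fin ℓ → Z) := univ.filter (fun a => ∃ h ∈ H (e a), h ∈ T) with hS
  have hScard : ((range J).filter (fun j => ∃ h ∈ H j, h ∈ T)).card ≤ S.card := by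
    refine card_le_card_of_injOn lf ?_ ?_
    · intro j hj
      obtain ⟨hj1, hj2⟩ := mem_filter.1 (Finset.mem_coe.1 hj)
      have hj1' := mem_range.1 hj1
      refine Finset.mem_coe.2 (mem_filter.2 ⟨mem_univ _, ?_⟩)
      have : ((e (lf j) : Fin J) : ℕ) = j := by
        simp only [lf, hj1', dite_true, Equiv.apply_symm_apply]
      rw [this]
      exact hj2
    · intro i hi j hj h
      exact hlfinj i j (mem_range.1 (mem_filter.1 (Finset.mem_coe.1 hi)).1)
        (mem_range.1 (mem_filter.1 (Finset.mem_coe.1 hj)).1) h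
  obtain ⟨t, u, htu⟩ := node ℓ S (by
    have h1 : (((s - 1 : ℕ) : ℝ)) ^ ℓ < (S.card : ℝ) := by
      refine hℓ.trans_le ?_
      have h2 : δ * (J : ℝ) = δ * (s : ℝ) ^ ℓ := by rw [hJ]; push_cast; ring
      rw [← h2]
      exact hThits.trans (by exact_mod_cast hScard)
    exact_mod_cast h1)
  -- parameters
  have htℓ : t.val < ℓ := t.2
  set up := ∑ k ∈ Ico (t.val + 1) ℓ, dv k (ext u k) with hup
  have hupA : A (t.val + 1) + up ≤ A ℓ := mid hA (ext u) (t.val + 1) ℓ htℓ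
  have hagree : ∀ a : Fin ℓ → Z, (∀ i, t < i → a i = u i) → ∀ k, t.val < k → k < ℓ →
      ext a k = ext u k := by
    intro a ha k hk hkℓ
    simp only [ext, hkℓ, dite_true]
    rw [ha ⟨k, hkℓ⟩ hk]
  have hupeq : ∀ x : ℕ → Z, (∀ k, t.val < k → k < ℓ → x k = ext u k) →
      ∑ k ∈ Ico (t.val + 1) ℓ, dv k (x k) = up := by
    intro x hx
    refine sum_congr rfl fun k hk => ?_
    rw [mem_Ico] at hk
    rw [hx k hk.1 hk.2]
  have hTQ : T.card ≤ Q := by
    have h1 : T ⊆ (range J).biUnion H := fun h hh => by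
      obtain ⟨j, hj, hjh⟩ := hTH h hh
      exact mem_biUnion.2 ⟨j, mem_range.2 hj, hjh⟩
    refine (card_le_card h1).trans (card_biUnion_le.trans (sum_le_sum fun j _ => ?_))
    exact card_image_le.trans (card_range _).le
  refine ⟨t.val, htℓ, O + up, R, T, hTex, hTQ, Nat.le_add_right _ _, by omega, fun h hh => ?_,
    fun z => ?_, fun h' hh'T hw1 hw2 => ?_⟩
  · obtain ⟨j, hj, hjh⟩ := hTH h hh
    exact (dvd_mul_right m Q.factorial).trans (hHmem j hj h hjh).2.2
  · obtain ⟨a, haS, hat, hau⟩ := htu z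
    obtain ⟨h, hh, hhT⟩ := (mem_filter.1 haS).2
    obtain ⟨a1, a2, _⟩ := hHmem (e a) (e a).2 h hh
    rw [hlf] at a1 a2
    obtain ⟨l1, l2⟩ := loc a t.val htℓ h a1 a2
    rw [hupeq (ext a) (hagree a hau)] at l1 l2
    have hx : ext a t.val = z := by
      simp only [ext, htℓ, dite_true, Fin.eta]
      exact hat
    rw [hx] at l1 l2
    exact ⟨h, hhT, l1, l2⟩
  · obtain ⟨j, hj, hjh⟩ := hTH h' hh'T
    obtain ⟨a1, a2, a3⟩ := hHmem j hj h' hjh
    set a := lf j with ha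
    have hag : ∀ k, t.val < k → k < ℓ → ext a k = ext u k := by
      by_contra hcon
      push Not at hcon
      obtain ⟨k, hk1, hk2, hk3⟩ := hcon
      obtain ⟨i, hi, hti, hne', htop⟩ := top_diff (ext a) (ext u) (t.val + 1) ℓ
        ⟨k, hk2, hk1, hk3⟩
      obtain ⟨l1, l2⟩ := loc a i hi h' a1 a2
      have hsum : ∑ k ∈ Ico (i + 1) ℓ, dv k (ext a k) = ∑ k ∈ Ico (i + 1) ℓ, dv k (ext u k) :=
        sum_congr rfl fun k hk => by
          rw [mem_Ico] at hk
          rw [htop k hk.1 hk.2]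
      rw [hsum] at l1 l2
      have hupsplit : up = ∑ k ∈ Ico (t.val + 1) i, dv k (ext u k) +
          (dv i (ext u i) + ∑ k ∈ Ico (i + 1) ℓ, dv k (ext u k)) :=
        splitI (fun k => dv k (ext u k)) hti hi
      have hmid := mid hA (ext u) (t.val + 1) i hti
      have hBi := hBmono hti
      rcases hsep i _ _ hne' with h5 | h5
      · omega
      · omega
    obtain ⟨l1, l2⟩ := loc a t.val htℓ h' a1 a2
    rw [hupeq (ext a) hag] at l1 l2
    exact ⟨ext a t.val, l1, l2⟩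

end Pool.Agent.Helper73.MX
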